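import Pool.Agent.Q162.Sch.PolyR

/-!
# Schiffer's conjecture for domains with algebraic boundary

Let `Ω = φ(D)`, where `φ` is holomorphic and injective in a disc `|w| < r`, `r > 1`, and `D` is the
open unit disc, and let the overdetermined problem (S) have a nontrivial solution on `Ω` for some
`lam > 0`. We prove that `Ω` is a disc in the following cases.

* The boundary of `Ω` lies in a real algebraic curve of degree at most seven.
* The boundary of `Ω` lies in a real algebraic curve `p(x, y) = 0` of any degree `n`, and the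
  homogeneous part of degree `n` of `p` is not divisible by `(x ^ 2 + y ^ 2) ^ 4` (the curve has
  multiplicity at most three at the circular points; this is true for a generic curve).
* A nonzero complex polynomial `P(z, conj z)` vanishes on the boundary of `Ω`, the total degree of
  which exceeds its degree in `conj z` by at most three.
* The boundary of `Ω` lies in a lemniscate `|Q(z)| = R` of a nonconstant polynomial `Q` (of any
  degree).
* On the boundary of `Ω` the function `conj z` satisfies an equation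
  `a_0(z) + a_1(z) conj z + ... + a_m(z) (conj z)^m = 0`, where the functions `a_j` are holomorphic in
  a neighbourhood of the closure of `Ω`, and all points `z1` of `Ω` with at most one exception have
  one of the following properties: `a_(m-1)(z1) ≠ 0`, or all solutions `ζ` of the equation
  `Σ a_j(z) ζ^j = 0` are `o(1 / |z - z1|)` as `z → z1`. This is true at `z1` for example if
  `a_m(z1) ≠ 0`, or if `a_m` has a simple zero at `z1`.

The proof: the function `φ` satisfies an algebraic equation over a ring of functions holomorphic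
outside the unit disc. We choose the Riemann map that maps `0` to the exceptional point, so that `∞`
corresponds to it. If `Ω` is not a disc, then `φ` is not entire by the theorem of the file
`BranchSingularities`. On its circle of convergence `φ` has a singular point `w1`, and near `w1`
either `(w - w1) φ(w) → 0`, or `1 / φ` is a simple root of the reversed equation and continues
holomorphically to `w1`. Both are impossible by the same theorem.
-/

set_option autoImplicit false

open MeasureTheory Metric Set Filter Topology ComplexConjugate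

namespace Pool.Agent.Results.MP_83fd13_an.AlgebraicBoundary

/-- The overdetermined problem (S) in the plane `ℂ`: `-Δu = lam u` in `Ω`, `∂u/∂n = 0` on `∂Ω`,
`u = c` on `∂Ω` has a nontrivial weak solution `u` for some real constant `c`; `G` is the weak
gradient of `u`, and both boundary conditions are expressed by testing with functions that need not
vanish on `∂Ω`. -/
def Solvable (Ω : Set ℂ) (lam : ℝ) : Prop :=
  ∃ (c : ℝ) (u : ℂ → ℝ) (G : ℂ → ℂ),
    MemLp u 2 (volume.restrict Ω) ∧ MemLp G 2 (volume.restrict Ω) ∧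
    (∀ φ : ℂ → ℝ, ContDiff ℝ 1 φ → HasCompactSupport φ → ∀ v : ℂ,
      ∫ x in Ω, (u x - c) * (fderiv ℝ φ x v) = - ∫ x in Ω, @inner ℝ ℂ _ (G x) v * φ x) ∧
    (∀ φ : ℂ → ℝ, ContDiff ℝ 1 φ → HasCompactSupport φ →
      ∫ x in Ω, fderiv ℝ φ x (G x) = lam * ∫ x in Ω, u x * φ x) ∧
    ¬ (u =ᵐ[volume.restrict Ω] 0)

/-- `Ω` is an open disc. -/
def IsDisc (Ω : Set ℂ) : Prop := ∃ (p : ℂ) (r0 : ℝ), 0 < r0 ∧ Ω = ball p r0

/-- `a_m` does not vanish in a punctured neighbourhood of `z1`, and
`(z - z1)^(m - j) a_j(z) / a_m(z) → 0` as `z → z1` for all `j < m`. All solutions `ζ` of the equation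
`Σ_{j ≤ m} a_j(z) ζ^j = 0` are then `o(1 / |z - z1|)`. -/
def Mild (m : ℕ) (a : ℕ → ℂ → ℂ) (z1 : ℂ) : Prop :=
  (∀ᶠ z in 𝓝[≠] z1, a m z ≠ 0) ∧
  ∀ j < m, Tendsto (fun z => a j z / a m z * (z - z1) ^ (m - j)) (𝓝[≠] z1) (𝓝 0)

/-- Let `φ` be holomorphic and injective in `|w| < r`, where `r > 1`, and let (S) have a nontrivial
solution on `Ω = φ(D)` for some `lam > 0`. Then `Ω` is a disc in each of the following cases:
(1) `Σ_{j ≤ m} a_j(z) (conj z)^j = 0` on `∂Ω`, where `m ≥ 1`, the `a_j` are holomorphic in a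
neighbourhood of the closure of `Ω`, and at most one point of `Ω` is neither mild nor satisfies
`a_(m-1) ≠ 0`;
(2) a nonzero real polynomial `p` in `x, y` vanishes on `∂Ω`, and the total degree of `p` is at most
`7`, or its homogeneous part of top degree is not divisible by `(x ^ 2 + y ^ 2) ^ 4`;
(3) `P(z, conj z) = 0` on `∂Ω` for a nonzero complex polynomial `P` in two variables, the total
degree of which is at most `3` plus its degree in the second variable;
(4) `|Q(z)| = R` on `∂Ω` for a nonconstant complex polynomial `Q` and some `R > 0`. -/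
theorem result (φ : ℂ → ℂ) (r : ℝ) (hr : 1 < r) (hφ : DifferentiableOn ℂ φ (ball 0 r))
    (hinj : InjOn φ (ball 0 r)) (Ω : Set ℂ) (hΩ : Ω = φ '' ball 0 1)
    (hS : ∃ lam : ℝ, 0 < lam ∧ Solvable Ω lam) :
    (∀ (m : ℕ) (a : ℕ → ℂ → ℂ) (U : Set ℂ), 1 ≤ m → IsOpen U → closure Ω ⊆ U →
      (∀ j ≤ m, DifferentiableOn ℂ (a j) U) →
      (∀ z ∈ frontier Ω, ∑ j ∈ Finset.range (m + 1), a j z * conj z ^ j = 0) →
      {z : ℂ | z ∈ Ω ∧ a (m - 1) z = 0 ∧ ¬ Mild m a z}.Subsingleton → IsDisc Ω) ∧
    (∀ p : MvPolynomial (Fin 2) ℝ, p ≠ 0 →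
      (p.totalDegree ≤ 7 ∨ ¬ (MvPolynomial.X 0 ^ 2 + MvPolynomial.X 1 ^ 2) ^ 4 ∣
        MvPolynomial.homogeneousComponent p.totalDegree p) →
      (∀ z ∈ frontier Ω, MvPolynomial.eval ![z.re, z.im] p = 0) → IsDisc Ω) ∧
    (∀ P : MvPolynomial (Fin 2) ℂ, P ≠ 0 → P.totalDegree ≤ P.degreeOf 1 + 3 →
      (∀ z ∈ frontier Ω, MvPolynomial.eval ![z, conj z] P = 0) → IsDisc Ω) ∧
    (∀ (Q : Polynomial ℂ) (R : ℝ), 1 ≤ Q.natDegree → 0 < R →
      (∀ z ∈ frontier Ω, ‖Q.eval z‖ = R) → IsDisc Ω) := by
  obtain ⟨lam, hlam, hS⟩ := hS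
  subst hΩ
  refine ⟨?_, ?_, ?_, ?_⟩
  · intro m a U hm hU hsub ha hrel hbad
    exact Pool.Agent.Q162.Sch.part1 hr hφ hinj hlam hS hm hU hsub ha hrel hbad
  · intro p hp0 hp7 hp
    rcases hp7 with hp7 | hdiv
    · exact Pool.Agent.Q162.Sch.part2 hr hφ hinj hlam hS hp0 hp7 hp
    · exact Pool.Agent.Q162.Sch.partR hr hφ hinj hlam hS hdiv hp
  · intro P hP0 hdeg hP
    exact Pool.Agent.Q162.Sch.partC hr hφ hinj hlam hS hP0 hdeg hP
  · intro Q R hQ hR hQR
    exact Pool.Agent.Q162.Sch.part3 hr hφ hinj hlam hS hQ hR hQR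

end Pool.Agent.Results.MP_83fd13_an.AlgebraicBoundary
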