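import Pool.Agent.TH298.GB.Main

/-!
# Schiffer's conjecture for convex domains with two widths in the ratio 3/2

Brown and Kahane (1982): a convex planar domain one of whose widths is at least twice another one
carries no nontrivial solution of (S).  Here the constant `2` is replaced by `3/2`.  Moreover a
counterexample has all its widths, multiplied by `√lam`, between `2πk` and `2π(k+1)` for one
integer `k ≥ 2`.
-/

set_option autoImplicit false

open MeasureTheory Set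

namespace Pool.Agent.Results.MP_83fd13_an.ConvexWidthRatio

/-- The overdetermined problem (S) in the plane `ℂ`: `-Δu = lam u` in `Ω`, `∂u/∂n = 0` on `∂Ω`,
`u = c` on `∂Ω` has a nontrivial weak solution `u` for some real constant `c`; `G` is the weak
gradient of `u`, and both boundary conditions are expressed by testing with functions that need not
vanish on `∂Ω`. -/
def Solvable (Ω : Set ℂ) (lam : ℝ) : Prop :=
  ∃ (c : ℝ) (u : ℂ → ℝ) (G : ℂ → ℂ),
    MemLp u 2 (volume.restrict Ω) ∧ MemLp G 2 (volume.restrict Ω) ∧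
    (∀ φ : ℂ → ℝ, ContDiff ℝ 1 φ → HasCompactSupport φ → ∀ v : ℂ,
      ∫ x in Ω, (u x - c) * (fderiv ℝ φ x v) = - ∫ x in Ω, @inner ℝ ℂ _ (G x) v * φ x) ∧
    (∀ φ : ℂ → ℝ, ContDiff ℝ 1 φ → HasCompactSupport φ →
      ∫ x in Ω, fderiv ℝ φ x (G x) = lam * ∫ x in Ω, u x * φ x) ∧
    ¬ (u =ᵐ[volume.restrict Ω] 0)

/-- The width of `Ω` in the direction `e`: the supremum of `⟨e, x - y⟩` over `x, y ∈ Ω`. -/
noncomputable def width (Ω : Set ℂ) (e : ℂ) : ℝ :=
  sSup {t : ℝ | ∃ x ∈ Ω, ∃ y ∈ Ω, t = @inner ℝ ℂ _ e (x - y)}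

open Pool.Agent.TH234.BK TH259.FB in
/-- the width in the coordinates of the library -/
theorem width_eq {Ω : Set ℂ} (ho : IsOpen Ω) (hc : Convex ℝ Ω) (hb : Bornology.IsBounded Ω)
    (hne : Ω.Nonempty) {e : ℂ} {θ : ℝ} (h1 : e.re = -Real.sin θ) (h2 : e.im = Real.cos θ) :
    width Ω e = wd (KK Ω) θ := by
  have hK := KK_body ho hc hb hne
  have hKne : (KK Ω).Nonempty := by
    obtain ⟨x, hx⟩ := hK.2.2
    exact ⟨x, interior_subset hx⟩
  have hup : ∀ t ∈ {t : ℝ | ∃ x ∈ Ω, ∃ y ∈ Ω, t = @inner ℝ ℂ _ e (x - y)}, t ≤ wd (KK Ω) θ := by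
    rintro t ⟨x, hx, y, hy, rfl⟩
    have h5 := wd_ge hK.1 (θ := θ) (P := ![y.re, y.im]) (Q := ![x.re, x.im])
      (by rw [KK, mem_preimage, cx_surj]; exact subset_closure hy)
      (by rw [KK, mem_preimage, cx_surj]; exact subset_closure hx)
    rwa [gg_cx h1 h2, gg_cx h1 h2, cx_surj, cx_surj, ← inner_sub_right] at h5
  obtain ⟨x0, hx0⟩ := hne
  apply le_antisymm
  · exact csSup_le ⟨_, x0, hx0, x0, hx0, rfl⟩ hup
  · obtain ⟨P, hP, Q, hQ, hPQ⟩ := wd_attained hK.1 hKne θ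
    have hcl : ∀ x ∈ closure Ω, ∀ y ∈ closure Ω, @inner ℝ ℂ _ e (x - y) ≤ width Ω e := by
      intro x hx y hy
      have hcl2 : IsClosed {p : ℂ × ℂ | @inner ℝ ℂ _ e (p.1 - p.2) ≤ width Ω e} :=
        isClosed_le (continuous_const.inner (continuous_fst.sub continuous_snd)) continuous_const
      have h3 : (x, y) ∈ closure (Ω ×ˢ Ω) := by
        rw [closure_prod_eq]
        exact ⟨hx, hy⟩
      exact closure_minimal (fun p hp => le_csSup ⟨_, hup⟩ ⟨p.1, hp.1, p.2, hp.2, rfl⟩) hcl2 h3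
    rw [← hPQ, gg_cx h1 h2, gg_cx h1 h2, ← inner_sub_right]
    exact hcl _ hQ _ hP

/-- Let `Ω` be a nonempty bounded open convex set of the plane which carries a nontrivial solution
of (S) for some `lam > 0`.
(1) Every width of `Ω` is less than `3/2` times every other width.
(2) If `Ω` is not a disc then there is an integer `k ≥ 2` such that all widths of `Ω` lie strictly
between `2πk/√lam` and `2π(k+1)/√lam`.
In particular, a bounded convex domain one of whose widths is at least `3/2` times another one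
carries no nontrivial solution of (S), for any `lam > 0`. -/
theorem result (Ω : Set ℂ) (ho : IsOpen Ω) (hc : Convex ℝ Ω) (hb : Bornology.IsBounded Ω)
    (hne : Ω.Nonempty) (lam : ℝ) (hlam : 0 < lam) (hS : Solvable Ω lam) :
    (∀ e f : ℂ, ‖e‖ = 1 → ‖f‖ = 1 → width Ω f < 3 / 2 * width Ω e) ∧
    ((¬ ∃ (p : ℂ) (r : ℝ), 0 < r ∧ Ω = Metric.ball p r) →
      ∃ k : ℕ, 2 ≤ k ∧ ∀ e : ℂ, ‖e‖ = 1 →
        2 * Real.pi * k < Real.sqrt lam * width Ω e ∧
        Real.sqrt lam * width Ω e < 2 * Real.pi * (k + 1)) := by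
  obtain ⟨c, u, G, hu, hG, h1, h2, hu0⟩ := hS
  have hS' : Pool.Agent.TH298.Sch.Sol Ω lam c u G := ⟨hu, hG, h1, h2⟩
  have hk : 0 < Real.sqrt lam := Real.sqrt_pos.2 hlam
  have hkk : Real.sqrt lam ^ 2 = lam := Real.sq_sqrt hlam.le
  have hft : ∀ ξ : ℂ, ‖ξ‖ = Real.sqrt lam → ∫ x in Ω, Real.cos (@inner ℝ ℂ _ ξ x) = 0 ∧
      ∫ x in Ω, Real.sin (@inner ℝ ℂ _ ξ x) = 0 := fun ξ hξ =>
    Pool.Agent.W632.Schiffer.ft_zero hb ho.measurableSet hlam hS'.u2 hS'.h1 hS'.h2 hu0 ξ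
      (by rw [hξ, hkk])
  have hK := TH259.FB.KK_body ho hc hb hne
  have hz := Pool.Agent.TH234.BK.circle_complex hK.1 hk
    (TH259.FB.KK_FT ho hc hb hk (fun ξ hξ => (hft ξ hξ).1) (fun ξ hξ => (hft ξ hξ).2))
  have hC : ∀ θ, ∃ (A B : ℝ) (L : ℝ → ℝ),
      Pool.Agent.TH234.BK.CD (TH259.FB.KK Ω) (Real.sqrt lam) θ A B L :=
    fun θ => Pool.Agent.TH234.BK.chordData hK hz θ
  have hpi := Real.pi_pos
  constructor
  · intro e f he hf
    obtain ⟨θ, a1, a2⟩ := TH259.FB.dir_exists he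
    obtain ⟨θ', b1, b2⟩ := TH259.FB.dir_exists hf
    rw [width_eq ho hc hb hne a1 a2, width_eq ho hc hb hne b1 b2]
    exact Pool.Agent.TH234.BK.ratio hK hk hz θ' θ
  · intro hnd
    -- all widths are at least `4π/√lam`
    have h4 : ∀ e : ℂ, ‖e‖ = 1 → 4 * Real.pi ≤ Real.sqrt lam * width Ω e := by
      intro e he
      by_contra hcon
      push Not at hcon
      obtain ⟨θ, a1, a2⟩ := TH259.FB.dir_exists he
      refine hnd (Pool.Agent.TH298.GB.first_band ho hc hb hne hlam he (w := width Ω e) ?_ hcon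
        hS' hu0)
      intro x hx y hy
      rw [width_eq ho hc hb hne a1 a2]
      have h5 := Pool.Agent.TH234.BK.wd_ge hK.1 (θ := θ) (P := ![y.re, y.im]) (Q := ![x.re, x.im])
        (by rw [TH259.FB.KK, mem_preimage, TH259.FB.cx_surj]; exact subset_closure hy)
        (by rw [TH259.FB.KK, mem_preimage, TH259.FB.cx_surj]; exact subset_closure hx)
      rwa [TH259.FB.gg_cx a1 a2, TH259.FB.gg_cx a1 a2, TH259.FB.cx_surj, TH259.FB.cx_surj,
        ← inner_sub_right] at h5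
    obtain ⟨w0, hw0⟩ : ∃ w0 : ℝ, w0 = Real.sqrt lam * Pool.Agent.TH234.BK.wd (TH259.FB.KK Ω) 0 :=
      ⟨_, rfl⟩
    obtain ⟨k, hkd⟩ : ∃ k : ℕ, k = ⌊w0 / (2 * Real.pi)⌋₊ := ⟨_, rfl⟩
    have hdir : ∀ θ : ℝ, ∃ e : ℂ, ‖e‖ = 1 ∧ e.re = -Real.sin θ ∧ e.im = Real.cos θ := by
      intro θ
      refine ⟨⟨-Real.sin θ, Real.cos θ⟩, ?_, rfl, rfl⟩
      have h1 : ‖(⟨-Real.sin θ, Real.cos θ⟩ : ℂ)‖ ^ 2 = 1 := by
        rw [← Complex.normSq_eq_norm_sq, Complex.normSq_apply]
        simp only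
        nlinarith [Real.sin_sq_add_cos_sq θ]
      have h3 : |‖(⟨-Real.sin θ, Real.cos θ⟩ : ℂ)‖| = |1| :=
        (sq_eq_sq_iff_abs_eq_abs _ _).1 (by rw [h1]; norm_num)
      rwa [abs_of_nonneg (norm_nonneg _), abs_one] at h3
    have h4' : ∀ θ : ℝ, 4 * Real.pi ≤
        Real.sqrt lam * Pool.Agent.TH234.BK.wd (TH259.FB.KK Ω) θ := by
      intro θ
      obtain ⟨e, he, a1, a2⟩ := hdir θ
      have := h4 e he
      rwa [width_eq ho hc hb hne a1 a2] at this
    have hw4 : 4 * Real.pi ≤ w0 := by rw [hw0]; exact h4' 0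
    have h0 : 0 ≤ w0 / (2 * Real.pi) := div_nonneg (by linarith) (by linarith)
    have hk2 : 2 ≤ k := by
      rw [hkd]
      apply Nat.le_floor
      rw [le_div_iff₀ (by positivity)]
      push_cast
      linarith
    have hkle : 2 * Real.pi * k ≤ w0 := by
      have h1 : (k : ℝ) ≤ w0 / (2 * Real.pi) := by
        rw [hkd]; exact Nat.floor_le h0
      rw [le_div_iff₀ (by positivity)] at h1
      linarith
    have hkub : w0 < 2 * Real.pi * ((k + 1 : ℕ) : ℝ) := by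
      have h1 : w0 / (2 * Real.pi) < (k : ℝ) + 1 := by
        rw [hkd]; exact Nat.lt_floor_add_one _
      rw [div_lt_iff₀ (by positivity)] at h1
      push_cast
      linarith
    have hcont : Continuous
        (fun θ => Real.sqrt lam * Pool.Agent.TH234.BK.wd (TH259.FB.KK Ω) θ) :=
      continuous_const.mul (Pool.Agent.TH234.BK.wd_cont hK.1)
    have hub : ∀ θ, Real.sqrt lam * Pool.Agent.TH234.BK.wd (TH259.FB.KK Ω) θ <
        2 * Real.pi * ((k + 1 : ℕ) : ℝ) := by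
      intro θ
      by_contra hcon
      push Not at hcon
      obtain ⟨θ', hθ'⟩ := mem_range_of_exists_le_of_exists_ge hcont
        ⟨0, by rw [← hw0]; exact hkub.le⟩ ⟨θ, hcon⟩
      exact Pool.Agent.TH234.BK.wd_ne hk hC θ' (k + 1) (by omega) hθ'
    have hlb : ∀ θ, 2 * Real.pi * (k : ℝ) <
        Real.sqrt lam * Pool.Agent.TH234.BK.wd (TH259.FB.KK Ω) θ := by
      intro θ
      by_contra hcon
      push Not at hcon
      obtain ⟨θ', hθ'⟩ := mem_range_of_exists_le_of_exists_ge hcont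
        ⟨θ, hcon⟩ ⟨0, by rw [← hw0]; exact hkle⟩
      exact Pool.Agent.TH234.BK.wd_ne hk hC θ' k (by omega) hθ'
    refine ⟨k, hk2, ?_⟩
    intro e he
    obtain ⟨θ, a1, a2⟩ := TH259.FB.dir_exists he
    rw [width_eq ho hc hb hne a1 a2]
    refine ⟨hlb θ, ?_⟩
    have := hub θ
    push_cast at this
    exact this

end Pool.Agent.Results.MP_83fd13_an.ConvexWidthRatio
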