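import Pool.Agent.Q162.Sch.ExpParts

/-!
# Schiffer's conjecture for domains bounded by zero sets of exponential sums

Let `Ω = φ(D)`, where `φ` is holomorphic and injective in a disc `|w| < r`, `r > 1`, and `D` is the
open unit disc, and let the overdetermined problem (S) have a nontrivial solution on `Ω` for some
`lam > 0`. We prove that `Ω` is a disc if on its boundary
`Σ_ν a_ν(z) exp(ν conj z) = 0`, where `ν` runs through a finite set of complex numbers and the
functions `a_ν` are holomorphic in a neighbourhood of the closure of `Ω`, not all identically zero in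
`Ω`. In particular this holds if a nonzero exponential sum `Σ_k c_k exp(α_k x + β_k y)` with complex
frequencies and coefficients (for example a trigonometric polynomial) vanishes on the boundary.

The proof: the Schwarz function `S` of the boundary satisfies `Σ_ν a_ν(z) exp(ν S(z)) = 0`. Zeros of an
exponential sum move by at most one if the relative change of the coefficients is small (a
compactness argument), so that `S` grows at most logarithmically at every point of `Ω` that a path
of analytic continuation reaches. By the theorem of the file `BranchSingularities` a branch of `φ`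
blows up at least like `1 / dist` at its singularities. So `φ` is entire, and `Ω` is a disc.
-/

set_option autoImplicit false

open MeasureTheory Metric Set Filter Topology ComplexConjugate

namespace Pool.Agent.Results.MP_83fd13_an.ExponentialSums

/-- The overdetermined problem (S) in the plane `ℂ`: `-Δu = lam u` in `Ω`, `∂u/∂n = 0` on `∂Ω`,
`u = c` on `∂Ω` has a nontrivial weak solution `u` for some real constant `c`; `G` is the weak
gradient of `u`, and both boundary conditions are expressed by testing with functions that need not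
vanish on `∂Ω`. -/
def Solvable (Ω : Set ℂ) (lam : ℝ) : Prop :=
  ∃ (c : ℝ) (u : ℂ → ℝ) (G : ℂ → ℂ),
    MemLp u 2 (volume.restrict Ω) ∧ MemLp G 2 (volume.restrict Ω) ∧
    (∀ φ : ℂ → ℝ, ContDiff ℝ 1 φ → HasCompactSupport φ → ∀ v : ℂ,
      ∫ x in Ω, (u x - c) * (fderiv ℝ φ x v) = - ∫ x in Ω, @inner ℝ ℂ _ (G x) v * φ x) ∧
    (∀ φ : ℂ → ℝ, ContDiff ℝ 1 φ → HasCompactSupport φ →
      ∫ x in Ω, fderiv ℝ φ x (G x) = lam * ∫ x in Ω, u x * φ x) ∧
    ¬ (u =ᵐ[volume.restrict Ω] 0)

/-- `Ω` is an open disc. -/
def IsDisc (Ω : Set ℂ) : Prop := ∃ (p : ℂ) (r0 : ℝ), 0 < r0 ∧ Ω = ball p r0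

/-- Let `φ` be holomorphic and injective in `|w| < r`, where `r > 1`, and let (S) have a nontrivial
solution on `Ω = φ(D)` for some `lam > 0`. Then `Ω` is a disc in each of the following cases:
(1) `Σ_{ν ∈ s} a_ν(z) exp(ν conj z) = 0` on `∂Ω`, where `s` is a finite set of complex numbers and the
`a_ν` are holomorphic in a neighbourhood of the closure of `Ω` and not all identically zero in `Ω`;
(2) `Σ_{(α, β) ∈ s} c_(α, β) exp(α x + β y) = 0` on `∂Ω`, where `s` is a finite set of pairs of
complex numbers and the complex coefficients are not all zero. -/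
theorem result (φ : ℂ → ℂ) (r : ℝ) (hr : 1 < r) (hφ : DifferentiableOn ℂ φ (ball 0 r))
    (hinj : InjOn φ (ball 0 r)) (Ω : Set ℂ) (hΩ : Ω = φ '' ball 0 1)
    (hS : ∃ lam : ℝ, 0 < lam ∧ Solvable Ω lam) :
    (∀ (s : Finset ℂ) (a : ℂ → ℂ → ℂ) (U : Set ℂ), IsOpen U → closure Ω ⊆ U →
      (∀ ν ∈ s, DifferentiableOn ℂ (a ν) U) →
      (∀ z ∈ frontier Ω, ∑ ν ∈ s, a ν z * Complex.exp (ν * conj z) = 0) →
      (∃ ν ∈ s, ∃ z ∈ Ω, a ν z ≠ 0) → IsDisc Ω) ∧
    (∀ (s : Finset (ℂ × ℂ)) (c : ℂ × ℂ → ℂ), (∃ ξ ∈ s, c ξ ≠ 0) →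
      (∀ z ∈ frontier Ω, ∑ ξ ∈ s, c ξ * Complex.exp (ξ.1 * z.re + ξ.2 * z.im) = 0) →
      IsDisc Ω) := by
  obtain ⟨lam, hlam, hS⟩ := hS
  subst hΩ
  refine ⟨?_, ?_⟩
  · intro s a U hU hsub ha hrel hne
    exact Pool.Agent.Q162.Sch.exp_part1 hr hφ hinj hlam hS hU hsub ha hrel hne
  · intro s c hne hrel
    exact Pool.Agent.Q162.Sch.exp_part2 hr hφ hinj hlam hS hne hrel

end Pool.Agent.Results.MP_83fd13_an.ExponentialSums
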