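import Pool.Agent.Q162.Sch.PolyC
import Pool.Agent.Q162.Sch.PolyR

/-!
# Schiffer's conjecture for the level domains of Green's functions

Let `W` be a bounded simply connected domain and `f : D → W` a Riemann map, `D` the open unit disc.
The domains `f(tD)`, `0 < t < 1`, are the level domains `{g > log (1 / t)}` of Green's function `g` of
`W` with pole at `f(0)`. We prove: if the overdetermined problem (S) has a nontrivial solution on one
of them, for some `lam > 0`, then `f` continues holomorphically to a larger disc, so that the boundary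
of `W` is an analytic closed curve; it has no convex corners and no outward cusps, it meets each line
in finitely many points, and, unless `f(tD)` is a disc, it meets each real algebraic curve of degree
at most seven, each real algebraic curve `p(x, y) = 0` of any degree with `(x ^ 2 + y ^ 2) ^ 4` not a
divisor of the top degree part of `p`, and each lemniscate in finitely many points. So Schiffer's conjecture is true for all
level domains of Green's function of a polygon, of a domain whose boundary contains a line segment,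
an arc of a conic or of a lemniscate, and of every domain whose boundary is not an analytic curve.
Boundedness is only used in the form `(1 - |v|) |f(v)| → 0` as `|v| → 1`.

The proof: the Riemann map `w ↦ f(t w)` of the level domain is `o(1 / dist)` at the circle
`|w| = 1 / t`, and by the theorem of the file `BranchSingularities` a branch of the Riemann map blows
up at least like `1 / dist` at its singularities. If the boundary of `W` lies on an algebraic curve,
then the singularities of `f` outside the disc are those of the Schwarz function of this curve, which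
is an algebraic function; at most one of them is not of the types excluded by that theorem, and
an automorphism of the disc moves it to `∞`.
-/

set_option autoImplicit false

open MeasureTheory Metric Set Filter Topology ComplexConjugate

namespace Pool.Agent.Results.MP_83fd13_an.GreenLevelDomains

/-- The overdetermined problem (S) in the plane `ℂ`: `-Δu = lam u` in `Ω`, `∂u/∂n = 0` on `∂Ω`,
`u = c` on `∂Ω` has a nontrivial weak solution `u` for some real constant `c`; `G` is the weak
gradient of `u`, and both boundary conditions are expressed by testing with functions that need not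
vanish on `∂Ω`. -/
def Solvable (Ω : Set ℂ) (lam : ℝ) : Prop :=
  ∃ (c : ℝ) (u : ℂ → ℝ) (G : ℂ → ℂ),
    MemLp u 2 (volume.restrict Ω) ∧ MemLp G 2 (volume.restrict Ω) ∧
    (∀ φ : ℂ → ℝ, ContDiff ℝ 1 φ → HasCompactSupport φ → ∀ v : ℂ,
      ∫ x in Ω, (u x - c) * (fderiv ℝ φ x v) = - ∫ x in Ω, @inner ℝ ℂ _ (G x) v * φ x) ∧
    (∀ φ : ℂ → ℝ, ContDiff ℝ 1 φ → HasCompactSupport φ →
      ∫ x in Ω, fderiv ℝ φ x (G x) = lam * ∫ x in Ω, u x * φ x) ∧
    ¬ (u =ᵐ[volume.restrict Ω] 0)

/-- `Ω` is an open disc. -/
def IsDisc (Ω : Set ℂ) : Prop := ∃ (p : ℂ) (r0 : ℝ), 0 < r0 ∧ Ω = ball p r0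

/-- `P` is a boundary point of `W` near which `W` lies in a sector with vertex `P` of opening less than
`π`: a convex corner or an outward cusp. -/
def Corner (W : Set ℂ) (P : ℂ) : Prop :=
  P ∈ frontier W ∧ ∃ (e : ℂ) (κ ρ : ℝ), 0 < κ ∧ 0 < ρ ∧
    ∀ z ∈ W, ‖z - P‖ < ρ → κ * ‖z - P‖ ≤ ((z - P) * conj e).re

/-- Let `f` be holomorphic and injective in the unit disc, `W` the image, and `(1 - |v|) |f(v)| → 0` as
`|v| → 1` (for example let `W` be bounded), and let (S) have a nontrivial solution on
`f({|v| < t})` for some `0 < t < 1` and `lam > 0`. Then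
(1) `f` continues holomorphically to a larger disc and maps the unit circle onto the boundary of
`W`;
(2) `W` has no corners in the sense of `Corner`;
(3) each line meets the boundary of `W` in finitely many points;
(4) if `f({|v| < t})` is not a disc, then the following sets meet the boundary of `W` in finitely many
points: each real algebraic curve `p(x, y) = 0` of degree at most seven, or with homogeneous part of
top degree not divisible by `(x ^ 2 + y ^ 2) ^ 4`; each set `{z | P(z, conj z) = 0}`, where `P` is a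
nonzero complex polynomial the total degree of which is at most `3` plus its degree in the second
variable; and each lemniscate. -/
theorem result (f : ℂ → ℂ) (hf : DifferentiableOn ℂ f (ball 0 1)) (hinj : InjOn f (ball 0 1))
    (hgrow : ∀ η : ℝ, 0 < η → ∃ δ > 0, ∀ v : ℂ, 1 - δ < ‖v‖ → ‖v‖ < 1 → (1 - ‖v‖) * ‖f v‖ ≤ η)
    (W : Set ℂ) (hW : W = f '' ball 0 1) (t : ℝ) (ht : 0 < t) (ht1 : t < 1)
    (hS : ∃ lam : ℝ, 0 < lam ∧ Solvable (f '' ball 0 t) lam) :
    (∃ (R : ℝ) (F : ℂ → ℂ), 1 < R ∧ DifferentiableOn ℂ F (ball 0 R) ∧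
      (∀ v ∈ ball (0 : ℂ) 1, F v = f v) ∧ frontier W = F '' sphere 0 1) ∧
    (∀ P : ℂ, ¬ Corner W P) ∧
    (∀ α β γ : ℝ, α ≠ 0 ∨ β ≠ 0 →
      {z : ℂ | z ∈ frontier W ∧ α * z.re + β * z.im = γ}.Finite) ∧
    (¬ IsDisc (f '' ball 0 t) →
      (∀ p : MvPolynomial (Fin 2) ℝ, p ≠ 0 →
        (p.totalDegree ≤ 7 ∨ ¬ (MvPolynomial.X 0 ^ 2 + MvPolynomial.X 1 ^ 2) ^ 4 ∣
          MvPolynomial.homogeneousComponent p.totalDegree p) →
        {z : ℂ | z ∈ frontier W ∧ MvPolynomial.eval ![z.re, z.im] p = 0}.Finite) ∧
      (∀ P : MvPolynomial (Fin 2) ℂ, P ≠ 0 → P.totalDegree ≤ P.degreeOf 1 + 3 →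
        {z : ℂ | z ∈ frontier W ∧ MvPolynomial.eval ![z, conj z] P = 0}.Finite) ∧
      ∀ (Q : Polynomial ℂ) (ρ : ℝ), 1 ≤ Q.natDegree → 0 < ρ →
        {z : ℂ | z ∈ frontier W ∧ ‖Q.eval z‖ = ρ}.Finite) := by
  obtain ⟨lam, hlam, hS⟩ := hS
  subst hW
  obtain ⟨R, F, hR, hF, hFf, hfr⟩ :=
    Pool.Agent.Q162.Sch.bounded_main hf hinj hgrow ht ht1 hlam hS
  have hfr' : F '' sphere 0 1 ⊆ frontier (f '' ball 0 1) := by
    rintro z ⟨ζ, hζ, rfl⟩
    exact Pool.Agent.Q162.Sch.frontier_mem' hf hinj hR hF hFf (mem_sphere_zero_iff_norm.1 hζ)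
  have hbdd : Bornology.IsBounded (f '' ball 0 1) := by
    have h1 : IsCompact (F '' closedBall 0 1) :=
      (isCompact_closedBall (0 : ℂ) 1).image_of_continuousOn
        (hF.continuousOn.mono (closedBall_subset_ball hR))
    refine h1.isBounded.subset ?_
    rintro z ⟨v, hv, rfl⟩
    exact ⟨v, ball_subset_closedBall hv, hFf v hv⟩
  refine ⟨⟨R, F, hR, hF, hFf, Subset.antisymm hfr hfr'⟩, ?_, ?_, ?_⟩
  · rintro P ⟨hP, e, κ, ρ, hκ, hρ, hcor⟩
    obtain ⟨ζ, hζ, hζP⟩ := hfr hP
    rw [mem_sphere_zero_iff_norm] at hζ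
    have hsub : ball ζ (R - 1) ⊆ ball (0 : ℂ) R := by
      intro v hv
      rw [mem_ball, dist_eq_norm] at hv
      rw [mem_ball_zero_iff]
      have := norm_sub_norm_le v ζ
      rw [hζ] at this
      linarith
    exact Pool.Agent.Q162.Sch.corner_contra (e := e) hζ (by linarith : 0 < R - 1)
      (hF.mono hsub) (fun v hv => hFf v hv.2) hζP hinj hκ hρ
      (fun v hv hvρ => hcor (f v) ⟨v, hv, rfl⟩ hvρ)
  · intro α β γ hαβ
    by_contra hinf
    have hall := Pool.Agent.Q162.Sch.bd_analytic hR hF hfr
      (fun z : ℂ => α * z.re + β * z.im - γ) (fun z => by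
        have h1 : AnalyticAt ℝ (fun z : ℂ => z.re) z := Complex.reCLM.analyticAt z
        have h2 : AnalyticAt ℝ (fun z : ℂ => z.im) z := Complex.imCLM.analyticAt z
        exact ((analyticAt_const.mul h1).add (analyticAt_const.mul h2)).sub analyticAt_const)
      (by
        refine Set.Infinite.mono ?_ hinf
        rintro z ⟨h1, h2⟩
        exact ⟨h1, by linarith⟩)
    exact Pool.Agent.Q162.Sch.not_line (Pool.Agent.Q162.Sch.image_open hf hinj)
      ⟨f 0, 0, mem_ball_self one_pos, rfl⟩ hbdd hαβ
      (fun z hz => by have := hall z hz; linarith)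
  · intro hnd
    refine ⟨fun p hp0 hp7 => ?_, fun P hP0 hdeg => ?_, fun Q ρ hQ hρ => ?_⟩
    · by_contra hinf
      have hall := Pool.Agent.Q162.Sch.bd_poly hR hF hfr p hinf
      rcases hp7 with hp7 | hdiv
      · exact hnd (Pool.Agent.Q162.Sch.part2_level hf hinj hR hF hFf ht ht1 hlam hS hp0 hp7 hall)
      · obtain ⟨h1, h2⟩ := Pool.Agent.Q162.Sch.real_data p hdiv
        refine hnd (Pool.Agent.Q162.Sch.partC_level hf hinj hR hF hFf ht ht1 hlam hS h1 h2 ?_)
        intro z hz
        rw [Pool.Agent.Q162.Sch.eval_toC, hall z hz, Complex.ofReal_zero]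
    · by_contra hinf
      have hall := Pool.Agent.Q162.Sch.bd_analytic hR hF hfr
        (fun z : ℂ => (MvPolynomial.eval ![z, conj z] P).re ^ 2 +
          (MvPolynomial.eval ![z, conj z] P).im ^ 2) (fun z => by
          have h0 : AnalyticAt ℝ (fun z : ℂ => MvPolynomial.eval ![z, conj z] P) z :=
            Pool.Agent.Q162.Sch.eval_conj_analytic P z
          have h1 : AnalyticAt ℝ (fun z : ℂ => (MvPolynomial.eval ![z, conj z] P).re) z :=
            (Complex.reCLM.analyticAt _).comp h0
          have h2 : AnalyticAt ℝ (fun z : ℂ => (MvPolynomial.eval ![z, conj z] P).im) z :=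
            (Complex.imCLM.analyticAt _).comp h0
          exact (h1.pow 2).add (h2.pow 2))
        (by
          refine Set.Infinite.mono ?_ hinf
          rintro z ⟨h1, h2⟩
          refine ⟨h1, ?_⟩
          rw [h2]; simp)
      refine hnd (Pool.Agent.Q162.Sch.partC_level hf hinj hR hF hFf ht ht1 hlam hS hP0 hdeg ?_)
      intro z hz
      have h4 := hall z hz
      exact Pool.Agent.Q162.Sch.zero_of_sq h4
    · by_contra hinf
      have hall := Pool.Agent.Q162.Sch.bd_analytic hR hF hfr
        (fun z : ℂ => (Q.eval z).re ^ 2 + (Q.eval z).im ^ 2 - ρ ^ 2) (fun z => by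
          have h0 : AnalyticAt ℝ (fun z : ℂ => Q.eval z) z :=
            (Q.differentiable.analyticAt z).restrictScalars
          have h1 : AnalyticAt ℝ (fun z : ℂ => (Q.eval z).re) z :=
            (Complex.reCLM.analyticAt _).comp h0
          have h2 : AnalyticAt ℝ (fun z : ℂ => (Q.eval z).im) z :=
            (Complex.imCLM.analyticAt _).comp h0
          exact ((h1.pow 2).add (h2.pow 2)).sub analyticAt_const)
        (by
          refine Set.Infinite.mono ?_ hinf
          rintro z ⟨h1, h2⟩
          refine ⟨h1, ?_⟩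
          have h3 : (Q.eval z).re ^ 2 + (Q.eval z).im ^ 2 = ‖Q.eval z‖ ^ 2 := by
            rw [← Complex.normSq_eq_norm_sq, Complex.normSq_apply]; ring
          rw [h3, h2]; ring)
      refine hnd (Pool.Agent.Q162.Sch.part3_level hf hinj hR hF hFf ht ht1 hlam hS hQ hρ ?_)
      intro z hz
      have h3 : (Q.eval z).re ^ 2 + (Q.eval z).im ^ 2 = ‖Q.eval z‖ ^ 2 := by
        rw [← Complex.normSq_eq_norm_sq, Complex.normSq_apply]; ring
      have h4 := hall z hz
      rw [h3] at h4
      exact (sq_eq_sq₀ (norm_nonneg _) hρ.le).1 (by linarith)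

end Pool.Agent.Results.MP_83fd13_an.GreenLevelDomains
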